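import Pool.Agent.H781.DF.AllD

/-!
MP_4e0d62_gt, Q1, partial result in dimension 4: positively curved metrics on orientable
4-manifolds whose curvature operator is bounded below by `-c` times the minimum `κ` of the sectional
curvature have definite intersection form (`c < √3 - 1`), and second Betti number at most 1
(`c ≤ 1/12`). So the members `S² × S²`, `CP² # -CP²` (indefinite form) and `CP² # CP²` (`b_2 = 2`) of
the class of simply connected manifolds with metrics of nonnegative sectional curvature carry no
positively curved metric of this kind.

`SecGE g κ` (all sectional curvatures are at least `κ`) and `wedge22` (exterior product of two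
2-forms) are defined in `Pool/Agent/H781/CM/FDefs2.lean`, `CurvOpGE n g c` (all eigenvalues of the
curvature operator are at least `c`), `DF` (families of functions of tangent vectors), `IsForm`
(smooth differential forms), `IsClosedForm`, `IsExactForm` and `IsBetti (𝓡 n) M p b` (the `p`-th
de Rham cohomology of `M` has dimension `b`) in `Pool/Agent/H781/CM/FDefs.lean`.

Proof. Let `2 a` and `2 b` be twice the smallest eigenvalues of the curvature operator on self-dual
and anti-self-dual 2-forms at a point, suitably normalised; positivity of the sectional curvature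
gives `a + b ≥ 2 κ`, and the Weitzenböck form is at least `4 a` and `4 b` on the two kinds of
2-forms. If there are nonzero harmonic forms of both kinds, the refined Kato inequality for the
square roots of their lengths and the sharp Poincaré inequality (estimate of Lichnerowicz with
constant `4 κ`) give a contradiction if `c < √3 - 1`. If there are two orthogonal harmonic forms of
the same kind, the Weitzenböck form of the pair is at least
`4 κ (|u|² + |v|²) - 4 κ (1 + c) √((|u|² - |v|²)² + 4 ⟨u, v⟩²)`, and the same two inequalities make
the two squares small in the mean if `c ≤ 1/12`.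
-/

set_option autoImplicit false

open Bundle Manifold ContDiff

noncomputable section

namespace Pool.Agent.Results.MP_4e0d62_gt.DefiniteFourManifolds

open Pool.Agent.H781.CM Pool.Agent.H781.CM.F Pool.Agent.H781.DF

variable (M : Type) [TopologicalSpace M] [ChartedSpace (EuclideanSpace ℝ (Fin 4)) M]
  [IsManifold (𝓡 4) ∞ M]

/-- `M` has a nowhere vanishing smooth 4-form -/
def HasVolumeForm : Prop := ∃ Ω : DF (𝓡 4) M 4, IsForm Ω ∧ ∀ x, ∃ v, Ω x v ≠ 0

/-- The intersection form is definite: every closed 2-form `α` with `α ∧ α` exact is exact. -/
def DefiniteForm : Prop := ∀ α : DF (𝓡 4) M 2, IsClosedForm α → IsExactForm 4 (wedge22 α α) →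
  IsExactForm 2 α

/-- The second Betti number is at most 1. -/
def SecondBettiLEOne : Prop := ∃ b : ℕ, b ≤ 1 ∧ IsBetti (𝓡 4) M 2 b

/-- Let `M` be a closed connected 4-manifold with a nowhere vanishing 4-form, and `g` a Riemannian
metric of sectional curvature at least `κ > 0`.
(1) If the curvature operator is at least `-c κ` with `0 ≤ c < √3 - 1`, then the intersection form
is definite: every closed 2-form `α` with `α ∧ α` exact is exact.
(2) If the curvature operator is at least `-κ / 12`, then the second Betti number is at most 1. -/
theorem result [T2Space M] [CompactSpace M] [ConnectedSpace M] (hM : HasVolumeForm M)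
    (g : ContMDiffRiemannianMetric (𝓡 4) ∞ (EuclideanSpace ℝ (Fin 4))
      (fun x : M => TangentSpace (𝓡 4) x))
    (κ : ℝ) (hκ : 0 < κ) (hg : SecGE g κ) :
    (∀ c : ℝ, 0 ≤ c → c < √3 - 1 → CurvOpGE 4 g (-(c * κ)) → DefiniteForm M) ∧
    (CurvOpGE 4 g (-(κ / 12)) → SecondBettiLEOne M) := by
  obtain ⟨Ω, hΩ, hΩ0⟩ := hM
  exact main4 M g Ω κ hΩ hΩ0 hκ hg

end Pool.Agent.Results.MP_4e0d62_gt.DefiniteFourManifolds
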