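import Pool.Agent.H781.KP.AllZ

/-!
MP_4e0d62_gt, Q1, partial result in every dimension: the real cohomology of closed manifolds with a
positively curved metric whose curvature operator is not too negative. For every dimension `n ≥ 2`
and every `κ > 0` there is `ε > 0` such that every closed connected Riemannian `n`-manifold `M` with
sectional curvature at least `κ` and curvature operator at least `-ε` has the following properties.
No bound on diameter, volume or curvature from above is assumed.

* All Betti numbers are at most one. If `n` is odd then `b_p = 0` for `0 < p < n`. If `n` is even
  then the Betti numbers of odd degree vanish, and the degrees of the nonzero ones are closed under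
  addition as long as the sum is at most `n`.
* The product of two nonzero real cohomology classes of positive degrees `p`, `q` with `p + q ≤ n`
  is not zero.
* If `b_n ≠ 0`, that is if `M` is orientable, then the real cohomology ring of `M` is
  `ℝ[x]/(x^(m+1))`, with `x` of degree `q`, `n = q m`, and `q = n` or `q` even.

So `M` is not a product of closed orientable manifolds of positive dimensions. The known simply
connected manifolds with nonnegative sectional curvature and another real cohomology ring than
`ℝ[x]/(x^(m+1))` (all products, compact simple Lie groups of dimension at least 4, connected sums
`CP^m # ± CP^m`, `HP^m # ± HP^m` with `m ≥ 2`, flag manifolds with `b_2 > 1`, complex Grassmannians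
which are not projective spaces, Aloff-Wallach spaces) carry no metric of this kind.

`SecGE g κ` (all sectional curvatures are at least `κ`) is defined in
`Pool/Agent/H781/CM/FDefs2.lean`, `CurvOpGE n g c` (all eigenvalues of the curvature operator are at
least `c`) and `IsBetti (𝓡 n) M p b` (the `p`-th de Rham cohomology of `M` has dimension `b`) in
`Pool/Agent/H781/CM/FDefs.lean`, `BSt` (the statement on the Betti numbers) in
`Pool/Agent/H781/KP/L.lean`, the exterior product `wedge` in `Pool/Agent/H781/KP/GW.lean`,
`CupNonzero` and `TruncatedPolynomial` in `Pool/Agent/H781/KP/Tpr.lean`.

Proof. Suppose that the curvature operator is at least `-ε`. The eigenforms of the Hodge Laplacian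
with very small eigenvalues are almost parallel and have small Weitzenböck terms; at a good point
they span, for `ε → 0`, a graded subalgebra `A` of the Clifford algebra of `ℝⁿ` whose stabiliser `G`
in `O(n)` acts transitively on the unit sphere, and the rescaled curvature tensors converge to a
nonzero nonnegative curvature tensor with values in the Lie algebra of `G`; the one of least norm is
`G`-invariant, so it is invariant under its own values, and the elements of `A` are invariant under
its values. Such a tensor `R` has rank one, and after scaling the eigenvalues of its Jacobi
operators are 4 and 1 (this is proved without classification). The 4-eigenspaces define lines of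
dimension `D`, which divides `n`, and `D` is even or `n`; restriction of invariant forms to the
orthogonal complement of a line is injective in degrees below `n`, so the invariant forms have
dimension at most one in each degree, vanish in degrees which are not multiples of `D`, and products
of invariant forms do not vanish. The dimensions of `A` bound the Betti numbers and have the same
alternating sum. The products of harmonic forms are compared with those in `A` by bounds of the
fourth moments of the squared lengths of harmonic forms, which follow from the Poincaré inequality
and the Bochner formula.
-/

set_option autoImplicit false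

open Bundle Manifold ContDiff

noncomputable section

namespace Pool.Agent.Results.MP_4e0d62_gt.RealCohomology

open Pool.Agent.H781.CM Pool.Agent.H781.CM.F Pool.Agent.H781.KP

/-- For every dimension `n ≥ 2` and every `κ > 0` there is `ε > 0` such that for every closed
connected Riemannian `n`-manifold `M` with sectional curvature at least `κ` and curvature operator
at least `-ε` the Betti numbers have the structure `BSt`, products of nonzero real cohomology
classes of positive degrees `p`, `q` with `p + q ≤ n` are not zero, and the `n`-th Betti number is
zero or the real cohomology ring is a truncated polynomial algebra on one generator. -/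
theorem result (n : ℕ) (κ : ℝ) (hn : 2 ≤ n) (hκ : 0 < κ) : ∃ ε : ℝ, 0 < ε ∧
    ∀ (M : Type) [TopologicalSpace M] [T2Space M] [CompactSpace M] [ConnectedSpace M]
      [ChartedSpace (EuclideanSpace ℝ (Fin n)) M] [IsManifold (𝓡 n) ∞ M]
      (g : ContMDiffRiemannianMetric (𝓡 n) ∞ (EuclideanSpace ℝ (Fin n))
        (fun x : M => TangentSpace (𝓡 n) x)),
      SecGE g κ → CurvOpGE n g (-ε) →
      (∃ b : ℕ → ℕ, (∀ p, IsBetti (𝓡 n) M p (b p)) ∧ BSt n b) ∧ CupNonzero n M ∧
        (IsBetti (𝓡 n) M n 0 ∨ TruncatedPolynomial n M) := by
  obtain ⟨ε, hε, h⟩ := mainw n κ hn hκ
  refine ⟨ε, hε, fun M _ _ _ _ _ _ g h1 h2 => ?_⟩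
  obtain ⟨⟨b, hb, hs⟩, hc⟩ := h M g h1 h2
  refine ⟨⟨b, hb, hs⟩, hc, trunc_of_cup b hb hn ?_ hs hc⟩
  have h3 := hs.1 0
  by_contra h4
  have h5 : b 0 = 0 := by omega
  have h7 := hb 0
  rw [h5] at h7
  have h6 : IsExactForm 0 (fun _ _ => 1 : DF (𝓡 n) M 0) := Cpr.betti_zero h7 closed_one
  obtain ⟨x⟩ := (inferInstance : Nonempty M)
  exact one_ne_zero (h6 x fun i => i.elim0)

end Pool.Agent.Results.MP_4e0d62_gt.RealCohomology
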